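import Mathlib

/-!
The Golod-Shafarevich inequality for algebras with a basis of words.
-/

namespace Pool.Agent.Helper77.GS

open Module Submodule

/-- An algebra with a basis of words. -/
structure WordBasis (K X T : Type*) [Field K] [Ring T] [Algebra K T] where
  /-- the basis -/
  b : Basis (List X) K T
  one : b [] = 1
  mul : ∀ l l', b (l ++ l') = b l * b l'

section finrank

variable {K T : Type*} [Field K] [Ring T] [Algebra K T]

lemma finrank_finset_sup_le {ι : Type*} (s : Finset ι) (f : ι → Submodule K T)
    (hf : ∀ i, FiniteDimensional K (f i)) :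
    finrank K (s.sup f : Submodule K T) ≤ ∑ i ∈ s, finrank K (f i) := by
  classical
  induction s using Finset.induction_on with
  | empty => simp
  | insert a s ha ih =>
    rw [Finset.sup_insert, Finset.sum_insert ha]
    have : FiniteDimensional K (s.sup f : Submodule K T) := Submodule.finiteDimensional_finset_sup s f
    exact (finrank_add_le_finrank_add_finrank _ _).trans (Nat.add_le_add_left ih _)

end finrank

namespace WordBasis

section basic

variable {K X T : Type*} [Field K] [Ring T] [Algebra K T] (B : WordBasis K X T)

/-- Homogeneous elements of degree `n`. -/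
def homog (n : ℕ) : Submodule K T := span K (Set.range fun l : List.Vector X n => B.b l.1)

lemma b_mem_homog {l : List X} {n : ℕ} (h : l.length = n) : B.b l ∈ B.homog n :=
  subset_span ⟨⟨l, h⟩, rfl⟩

lemma finrank_homog [Fintype X] (n : ℕ) : finrank K (B.homog n) = Fintype.card X ^ n := by
  classical
  unfold homog
  rw [finrank_span_eq_card, card_vector]
  exact B.b.linearIndependent.comp (fun l : List.Vector X n => l.1)
    (fun l l' h => Subtype.ext h)

instance [Finite X] (n : ℕ) : FiniteDimensional K (B.homog n) := by
  have := Fintype.ofFinite X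
  exact FiniteDimensional.span_of_finite K (Set.finite_range _)

/-- The projection to the component of degree `n`. -/
noncomputable def comp (n : ℕ) : T →ₗ[K] T :=
  B.b.constr K fun l => if l.length = n then B.b l else 0

lemma comp_b (n : ℕ) (l : List X) : B.comp n (B.b l) = if l.length = n then B.b l else 0 := by
  unfold comp
  rw [Basis.constr_basis]

lemma comp_of_mem {n : ℕ} {a : T} (h : a ∈ B.homog n) : B.comp n a = a := by
  unfold homog at h
  induction h using span_induction with
  | mem x hx =>
    obtain ⟨l, rfl⟩ := hx
    simp only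
    rw [comp_b, if_pos l.2]
  | zero => simp
  | add x y _ _ hx hy => rw [map_add, hx, hy]
  | smul c x _ hx => rw [map_smul, hx]

lemma comp_of_mem_ne {m n : ℕ} {a : T} (h : a ∈ B.homog m) (hmn : m ≠ n) : B.comp n a = 0 := by
  unfold homog at h
  induction h using span_induction with
  | mem x hx =>
    obtain ⟨l, rfl⟩ := hx
    simp only
    rw [comp_b, if_neg]
    rw [l.2]
    exact hmn
  | zero => simp
  | add x y _ _ hx hy => rw [map_add, hx, hy, add_zero]
  | smul c x _ hx => rw [map_smul, hx, smul_zero]

lemma comp_mem (n : ℕ) (a : T) : B.comp n a ∈ B.homog n := by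
  have h := B.b.mem_span a
  induction h using span_induction with
  | mem x hx =>
    obtain ⟨l, rfl⟩ := hx
    rw [comp_b]
    split_ifs with hl
    · exact B.b_mem_homog hl
    · exact zero_mem _
  | zero => simp
  | add x y _ _ hx hy => rw [map_add]; exact add_mem hx hy
  | smul c x _ hx => rw [map_smul]; exact smul_mem _ _ hx

lemma mul_homog {m n : ℕ} {a c : T} (ha : a ∈ B.homog m) (hc : c ∈ B.homog n) :
    a * c ∈ B.homog (m + n) := by
  unfold homog at ha
  induction ha using span_induction with
  | mem x hx =>
    obtain ⟨l, rfl⟩ := hx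
    unfold homog at hc
    induction hc using span_induction with
    | mem y hy =>
      obtain ⟨l', rfl⟩ := hy
      simp only
      rw [← B.mul]
      exact B.b_mem_homog (by simp [l.2, l'.2])
    | zero => simp
    | add x y _ _ hx hy => rw [mul_add]; exact add_mem hx hy
    | smul c x _ hx => rw [mul_smul_comm]; exact smul_mem _ _ hx
  | zero => simp
  | add x y _ _ hx hy => rw [add_mul]; exact add_mem hx hy
  | smul c x _ hx => rw [smul_mul_assoc]; exact smul_mem _ _ hx

end basic

section ideal

variable {K X T : Type*} [Field K] [Ring T] [Algebra K T] (B : WordBasis K X T)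
  {ι : Type*} (r : ι → T) (deg : ι → ℕ)

/-- The two-sided ideal generated by the family `r`, as a submodule. -/
def ideal : Submodule K T := span K {a | ∃ u v i, a = B.b u * r i * B.b v}

lemma r_mem_ideal (i : ι) : r i ∈ B.ideal r := by
  apply subset_span
  exact ⟨[], [], i, by rw [B.one, one_mul, mul_one]⟩

lemma mul_mem_ideal_left {a : T} (ha : a ∈ B.ideal r) (c : T) : c * a ∈ B.ideal r := by
  have h := B.b.mem_span c
  induction h using span_induction with
  | mem x hx =>
    obtain ⟨l, rfl⟩ := hx
    unfold ideal at ha
    induction ha using span_induction with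
    | mem y hy =>
      obtain ⟨u, v, i, rfl⟩ := hy
      apply subset_span
      exact ⟨l ++ u, v, i, by rw [B.mul]; simp only [mul_assoc]⟩
    | zero => simp
    | add x y _ _ hx hy => rw [mul_add]; exact add_mem hx hy
    | smul c x _ hx => rw [mul_smul_comm]; exact smul_mem _ _ hx
  | zero => simp
  | add x y _ _ hx hy => rw [add_mul]; exact add_mem hx hy
  | smul c x _ hx => rw [smul_mul_assoc]; exact smul_mem _ _ hx

lemma mul_mem_ideal_right {a : T} (ha : a ∈ B.ideal r) (c : T) : a * c ∈ B.ideal r := by
  have h := B.b.mem_span c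
  induction h using span_induction with
  | mem x hx =>
    obtain ⟨l, rfl⟩ := hx
    unfold ideal at ha
    induction ha using span_induction with
    | mem y hy =>
      obtain ⟨u, v, i, rfl⟩ := hy
      apply subset_span
      exact ⟨u, v ++ l, i, by rw [B.mul]; simp only [mul_assoc]⟩
    | zero => simp
    | add x y _ _ hx hy => rw [add_mul]; exact add_mem hx hy
    | smul c x _ hx => rw [smul_mul_assoc]; exact smul_mem _ _ hx
  | zero => simp
  | add x y _ _ hx hy => rw [mul_add]; exact add_mem hx hy
  | smul c x _ hx => rw [mul_smul_comm]; exact smul_mem _ _ hx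

variable (hr : ∀ i, r i ∈ B.homog (deg i))

include hr in
lemma gen_mem_homog (u v : List X) (i : ι) :
    B.b u * r i * B.b v ∈ B.homog (u.length + deg i + v.length) :=
  B.mul_homog (B.mul_homog (B.b_mem_homog rfl) (hr i)) (B.b_mem_homog rfl)

include hr in
lemma comp_mem_ideal {a : T} (ha : a ∈ B.ideal r) (n : ℕ) : B.comp n a ∈ B.ideal r := by
  unfold ideal at ha
  induction ha using span_induction with
  | mem y hy =>
    obtain ⟨u, v, i, rfl⟩ := hy
    by_cases h : u.length + deg i + v.length = n
    · rw [← h, B.comp_of_mem (B.gen_mem_homog r deg hr u v i)]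
      exact subset_span ⟨u, v, i, rfl⟩
    · rw [B.comp_of_mem_ne (B.gen_mem_homog r deg hr u v i) h]
      exact zero_mem _
  | zero => simp
  | add x y _ _ hx hy => rw [map_add]; exact add_mem hx hy
  | smul c x _ hx => rw [map_smul]; exact smul_mem _ _ hx

/-- The homogeneous part of the ideal. -/
def J (n : ℕ) : Submodule K T := B.ideal r ⊓ B.homog n

instance [Finite X] (n : ℕ) : FiniteDimensional K (B.J r n) :=
  Submodule.finiteDimensional_inf_right _ _

lemma exists_compl [Finite X] (n : ℕ) : ∃ C : Submodule K T, C ≤ B.homog n ∧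
    B.J r n ⊔ C = B.homog n ∧ finrank K (B.J r n) + finrank K C = finrank K (B.homog n) := by
  obtain ⟨D, hD⟩ := Submodule.exists_isCompl (B.J r n)
  have hle : B.J r n ≤ B.homog n := inf_le_right
  have h1 : B.J r n ⊔ (D ⊓ B.homog n) = B.homog n := by
    rw [← sup_inf_assoc_of_le D hle, hD.sup_eq_top, top_inf_eq]
  have h2 : B.J r n ⊓ (D ⊓ B.homog n) = ⊥ := by
    rw [eq_bot_iff]
    calc _ ≤ B.J r n ⊓ D := inf_le_inf_left _ inf_le_left
      _ = ⊥ := hD.inf_eq_bot
  refine ⟨D ⊓ B.homog n, inf_le_right, h1, ?_⟩
  have h3 := finrank_sup_add_finrank_inf_eq (B.J r n) (D ⊓ B.homog n)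
  rw [h1, h2, finrank_bot, add_zero] at h3
  exact h3.symm

/-- A complement of the ideal in degree `n`. -/
noncomputable def C [Finite X] (n : ℕ) : Submodule K T := (B.exists_compl r n).choose

lemma C_le [Finite X] (n : ℕ) : B.C r n ≤ B.homog n := (B.exists_compl r n).choose_spec.1

lemma J_sup_C [Finite X] (n : ℕ) : B.J r n ⊔ B.C r n = B.homog n :=
  (B.exists_compl r n).choose_spec.2.1

lemma finrank_J_add_C [Finite X] (n : ℕ) :
    finrank K (B.J r n) + finrank K (B.C r n) = finrank K (B.homog n) :=
  (B.exists_compl r n).choose_spec.2.2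

instance [Finite X] (n : ℕ) : FiniteDimensional K (B.C r n) :=
  Submodule.finiteDimensional_of_le (B.C_le r n)

variable [Fintype X]

/-- The degree-one extension of the ideal part. -/
noncomputable def JV (n : ℕ) : Submodule K T :=
  Finset.univ.sup fun x : X => (B.J r n).map (LinearMap.mulRight K (B.b [x]))

lemma mul_b_mem_JV {n : ℕ} {a : T} (ha : a ∈ B.J r n) (x : X) : a * B.b [x] ∈ B.JV r n := by
  have h : (B.J r n).map (LinearMap.mulRight K (B.b [x])) ≤ B.JV r n :=
    Finset.le_sup (f := fun x : X => (B.J r n).map (LinearMap.mulRight K (B.b [x])))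
      (Finset.mem_univ x)
  exact h ⟨a, ha, rfl⟩

lemma mul_homog_mem_JV {m d n : ℕ} {a c : T} (ha : a ∈ B.J r m) (hc : c ∈ B.homog (d + 1))
    (hn : m + d = n) : a * c ∈ B.JV r n := by
  unfold homog at hc
  induction hc using span_induction with
  | mem y hy =>
    obtain ⟨⟨l, hl⟩, rfl⟩ := hy
    simp only
    -- split off the last letter
    rcases List.eq_nil_or_concat l with rfl | ⟨l', x, rfl⟩
    · simp at hl
    · rw [List.concat_eq_append, B.mul, ← mul_assoc]
      apply B.mul_b_mem_JV
      refine ⟨B.mul_mem_ideal_right r ha.1 _, ?_⟩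
      rw [← hn]
      apply B.mul_homog ha.2
      apply B.b_mem_homog
      simpa using hl
  | zero => simp
  | add x y _ _ hx hy => rw [mul_add]; exact add_mem hx hy
  | smul c x _ hx => rw [mul_smul_comm]; exact smul_mem _ _ hx

include hr in
lemma J_succ_le (hdeg : ∀ i, 1 ≤ deg i) (S : Finset ι) (n : ℕ)
    (hS : ∀ i, deg i ≤ n + 1 → i ∈ S) :
    B.J r (n + 1) ≤ B.JV r n ⊔
      S.sup fun i => (B.C r (n + 1 - deg i)).map (LinearMap.mulRight K (r i)) := by
  intro a ha
  rw [← B.comp_of_mem ha.2]
  have h := ha.1
  clear ha
  unfold ideal at h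
  induction h using span_induction with
  | mem y hy =>
    obtain ⟨u, v, i, rfl⟩ := hy
    by_cases h : u.length + deg i + v.length = n + 1
    · rw [B.comp_of_mem (by rw [← h]; exact B.gen_mem_homog r deg hr u v i)]
      rcases List.eq_nil_or_concat v with rfl | ⟨v', x, rfl⟩
      · rw [B.one, mul_one]
        simp only [List.length_nil, add_zero] at h
        have hu : B.b u ∈ B.J r u.length ⊔ B.C r u.length := by
          rw [B.J_sup_C]
          exact B.b_mem_homog rfl
        obtain ⟨j, hj, c, hc, hjc⟩ := mem_sup.1 hu
        rw [← hjc, add_mul]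
        apply add_mem
        · apply mem_sup_left
          have hd := hdeg i
          refine B.mul_homog_mem_JV r (d := deg i - 1) hj ?_ (by omega)
          have : deg i - 1 + 1 = deg i := by omega
          rw [this]
          exact hr i
        · apply mem_sup_right
          have hi : i ∈ S := hS i (by omega)
          have hle := Finset.le_sup (f := fun i => (B.C r (n + 1 - deg i)).map
            (LinearMap.mulRight K (r i))) hi
          apply hle
          have : n + 1 - deg i = u.length := by omega
          simp only [this]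
          exact ⟨c, hc, rfl⟩
      · rw [List.concat_eq_append, B.mul, ← mul_assoc]
        apply mem_sup_left
        apply B.mul_b_mem_JV
        refine ⟨subset_span ⟨u, v', i, rfl⟩, ?_⟩
        have h' : u.length + deg i + v'.length = n := by
          simp only [List.concat_eq_append, List.length_append, List.length_cons,
            List.length_nil] at h
          omega
        rw [← h']
        exact B.gen_mem_homog r deg hr u v' i
    · rw [B.comp_of_mem_ne (B.gen_mem_homog r deg hr u v i) h]
      exact zero_mem _
  | zero => simp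
  | add x y _ _ hx hy => rw [map_add]; exact add_mem hx hy
  | smul c x _ hx => rw [map_smul]; exact smul_mem _ _ hx

include hr in
lemma finrank_J_succ_le (hdeg : ∀ i, 1 ≤ deg i) (S : Finset ι) (n : ℕ)
    (hS : ∀ i, deg i ≤ n + 1 → i ∈ S) :
    finrank K (B.J r (n + 1)) ≤ Fintype.card X * finrank K (B.J r n) +
      ∑ i ∈ S, finrank K (B.C r (n + 1 - deg i)) := by
  have hfd1 : ∀ x : X, FiniteDimensional K ((B.J r n).map (LinearMap.mulRight K (B.b [x]))) :=
    fun x => inferInstance
  have hfd2 : ∀ i, FiniteDimensional K ((B.C r (n + 1 - deg i)).map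
    (LinearMap.mulRight K (r i))) := fun i => inferInstance
  have : FiniteDimensional K (B.JV r n) := Submodule.finiteDimensional_finset_sup _ _
  have : FiniteDimensional K (S.sup fun i => (B.C r (n + 1 - deg i)).map
    (LinearMap.mulRight K (r i)) : Submodule K T) := Submodule.finiteDimensional_finset_sup _ _
  refine (Submodule.finrank_mono (B.J_succ_le r deg hr hdeg S n hS)).trans ?_
  refine (finrank_add_le_finrank_add_finrank _ _).trans ?_
  apply Nat.add_le_add
  · refine (finrank_finset_sup_le _ _ hfd1).trans ?_
    refine (Finset.sum_le_sum fun x _ => finrank_map_le _ _).trans ?_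
    simp
  · refine (finrank_finset_sup_le _ _ hfd2).trans ?_
    exact Finset.sum_le_sum fun i _ => finrank_map_le _ _

end ideal

end WordBasis

end Pool.Agent.Helper77.GS
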