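import Mathlib
import Pool.Agent.Helper77.GS.GS

/-!
Growth of Golod-Shafarevich algebras.
-/

namespace Pool.Agent.Helper77.GS

open Module Submodule

namespace WordBasis

variable {K X T : Type*} [Field K] [Ring T] [Algebra K T] (B : WordBasis K X T) [Fintype X]
  {ι : Type*} (r : ι → T) (deg : ι → ℕ) (hr : ∀ i, r i ∈ B.homog (deg i))

include hr in
omit [Fintype X] in
lemma comp_zero_ideal (hdeg : ∀ i, 1 ≤ deg i) {a : T} (ha : a ∈ B.ideal r) : B.comp 0 a = 0 := by
  unfold ideal at ha
  induction ha using span_induction with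
  | mem y hy =>
    obtain ⟨u, v, i, rfl⟩ := hy
    apply B.comp_of_mem_ne (B.gen_mem_homog r deg hr u v i)
    have := hdeg i
    omega
  | zero => simp
  | add x y _ _ hx hy => rw [map_add, hx, hy, add_zero]
  | smul c x _ hx => rw [map_smul, hx, smul_zero]

include hr in
lemma finrank_C_zero (hdeg : ∀ i, 1 ≤ deg i) : finrank K (B.C r 0) = 1 := by
  have h := B.finrank_J_add_C r 0
  rw [B.finrank_homog, pow_zero] at h
  have hJ : B.J r 0 = ⊥ := by
    rw [eq_bot_iff]
    intro a ha
    rw [mem_bot, ← B.comp_of_mem ha.2]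
    exact B.comp_zero_ideal r deg hr hdeg ha.1
  rw [hJ, finrank_bot, zero_add] at h
  exact h

include hr in
/-- Under the Golod-Shafarevich condition the codimension of the ideal in degree `n` grows. -/
theorem growth (hdeg : ∀ i, 1 ≤ deg i) (hfin : ∀ n, {i | deg i ≤ n}.Finite) (c : ℝ) (hc : 0 < c)
    (hsum : ∀ S : Finset ι, ∑ i ∈ S, (c⁻¹) ^ (deg i) ≤ Fintype.card X / c - 1) (n : ℕ) :
    0 < (finrank K (B.C r n) : ℝ) ∧
      ∀ j ≤ n, (finrank K (B.C r j) : ℝ) * c ^ (n - j) ≤ finrank K (B.C r n) := by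
  induction n with
  | zero =>
    rw [B.finrank_C_zero r deg hr hdeg]
    refine ⟨by norm_num, fun j hj => ?_⟩
    have : j = 0 := by omega
    subst this
    rw [B.finrank_C_zero r deg hr hdeg]
    simp
  | succ n ih =>
    obtain ⟨ihpos, ih⟩ := ih
    set S := (hfin (n + 1)).toFinset with hS
    have hSmem : ∀ i, i ∈ S ↔ deg i ≤ n + 1 := by
      intro i
      rw [hS, Set.Finite.mem_toFinset]
      rfl
    have h1 := B.finrank_J_succ_le r deg hr hdeg S n (fun i hi => (hSmem i).2 hi)
    have h2 := B.finrank_J_add_C r n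
    have h3 := B.finrank_J_add_C r (n + 1)
    rw [B.finrank_homog] at h2 h3
    have h1' : (finrank K (B.J r (n + 1)) : ℝ) ≤ Fintype.card X * finrank K (B.J r n) +
      ∑ i ∈ S, (finrank K (B.C r (n + 1 - deg i)) : ℝ) := by exact_mod_cast h1
    have h2' : (finrank K (B.J r n) : ℝ) + finrank K (B.C r n) = (Fintype.card X : ℝ) ^ n := by
      exact_mod_cast h2
    have h3' : (finrank K (B.J r (n + 1)) : ℝ) + finrank K (B.C r (n + 1)) =
      (Fintype.card X : ℝ) ^ (n + 1) := by exact_mod_cast h3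
    -- bound the sum
    have h4 : ∑ i ∈ S, (finrank K (B.C r (n + 1 - deg i)) : ℝ) ≤
        (Fintype.card X - c) * finrank K (B.C r n) := by
      have h5 : ∀ i ∈ S, (finrank K (B.C r (n + 1 - deg i)) : ℝ) ≤
          (c⁻¹) ^ (deg i) * (c * finrank K (B.C r n)) := by
        intro i hi
        have hd := hdeg i
        have hle := (hSmem i).1 hi
        have h6 := ih (n + 1 - deg i) (by omega)
        have h7 : n - (n + 1 - deg i) = deg i - 1 := by omega
        rw [h7] at h6
        have h8 : (c⁻¹) ^ (deg i) * c = (c⁻¹) ^ (deg i - 1) := by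
          obtain ⟨d, hd'⟩ : ∃ d, deg i = d + 1 := ⟨deg i - 1, by omega⟩
          rw [hd', Nat.add_sub_cancel, pow_succ, mul_assoc, inv_mul_cancel₀ hc.ne', mul_one]
        rw [← mul_assoc, h8, inv_pow]
        rw [← div_eq_inv_mul, le_div_iff₀ (pow_pos hc _)]
        exact h6
      refine (Finset.sum_le_sum h5).trans ?_
      rw [← Finset.sum_mul]
      have h9 := mul_le_mul_of_nonneg_right (hsum S)
        (mul_nonneg hc.le (Nat.cast_nonneg (finrank K (B.C r n))))
      refine h9.trans (le_of_eq ?_)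
      field_simp
    have h10 : c * finrank K (B.C r n) ≤ (finrank K (B.C r (n + 1)) : ℝ) := by
      have : (Fintype.card X : ℝ) ^ (n + 1) = Fintype.card X * (Fintype.card X : ℝ) ^ n := by
        rw [pow_succ]; ring
      rw [this, ← h2'] at h3'
      nlinarith
    have hpos : 0 < (finrank K (B.C r (n + 1)) : ℝ) :=
      lt_of_lt_of_le (mul_pos hc ihpos) h10
    refine ⟨hpos, fun j hj => ?_⟩
    rcases Nat.lt_succ_iff_lt_or_eq.1 (Nat.lt_succ_of_le hj) with hj' | rfl
    · have h11 := ih j (by omega)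
      have h12 : n + 1 - j = (n - j) + 1 := by omega
      rw [h12, pow_succ, ← mul_assoc, mul_comm _ c]
      exact (mul_le_mul_of_nonneg_left h11 hc.le).trans h10
    · simp

include hr in
/-- For every `n` some word of length `n` is not in the ideal. -/
theorem exists_word (hdeg : ∀ i, 1 ≤ deg i) (hfin : ∀ n, {i | deg i ≤ n}.Finite) (c : ℝ)
    (hc : 0 < c)
    (hsum : ∀ S : Finset ι, ∑ i ∈ S, (c⁻¹) ^ (deg i) ≤ Fintype.card X / c - 1) (n : ℕ) :
    ∃ l : List X, l.length = n ∧ B.b l ∉ B.ideal r := by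
  by_contra hcon
  push Not at hcon
  have h1 : B.homog n ≤ B.ideal r := by
    unfold homog
    rw [span_le]
    rintro _ ⟨l, rfl⟩
    exact hcon l.1 l.2
  have h2 : B.J r n = B.homog n := inf_eq_right.2 h1
  have h3 := B.finrank_J_add_C r n
  rw [h2] at h3
  have h4 : finrank K (B.C r n) = 0 := by omega
  have h5 := (B.growth r deg hr hdeg hfin c hc hsum n).1
  rw [h4] at h5
  simp at h5

end WordBasis

end Pool.Agent.Helper77.GS
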