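import Mathlib
import Pool.Agent.Helper77.GS.Growth

/-!
The relations: squares of generators, `x y x`, and nilpotency relations for all tuples.
-/

namespace Pool.Agent.Helper77.GS

open Module Submodule

namespace WordBasis

section components

variable {K X T : Type*} [Field K] [Ring T] [Algebra K T] (B : WordBasis K X T)

lemma exists_bound (a : T) : ∃ D, ∀ D' ≥ D, a = ∑ s ∈ Finset.range D', B.comp s a := by
  have h := B.b.mem_span a
  induction h using span_induction with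
  | mem x hx =>
    obtain ⟨l, rfl⟩ := hx
    refine ⟨l.length + 1, fun D' hD' => ?_⟩
    simp only [comp_b]
    rw [Finset.sum_ite_eq, if_pos]
    exact Finset.mem_range.2 (by omega)
  | zero => exact ⟨0, fun D' _ => by simp⟩
  | add x y _ _ hx hy =>
    obtain ⟨D1, h1⟩ := hx
    obtain ⟨D2, h2⟩ := hy
    refine ⟨max D1 D2, fun D' hD' => ?_⟩
    simp only [map_add, Finset.sum_add_distrib]
    rw [← h1 D' (le_trans (le_max_left _ _) hD'), ← h2 D' (le_trans (le_max_right _ _) hD')]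
  | smul c x _ hx =>
    obtain ⟨D1, h1⟩ := hx
    refine ⟨D1, fun D' hD' => ?_⟩
    simp only [map_smul]
    rw [← Finset.smul_sum, ← h1 D' hD']

lemma exists_bound_tuple {N : ℕ} (f : Fin N → T) :
    ∃ D, ∀ j, ∀ D' ≥ D, f j = ∑ s ∈ Finset.range D', B.comp s (f j) := by
  choose D hD using fun j => B.exists_bound (f j)
  refine ⟨Finset.univ.sup D, fun j D' hD' => hD j D' ?_⟩
  exact (Finset.le_sup (Finset.mem_univ j)).trans hD'

/-- The elements all of whose components of degree less than `m` vanish. -/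
def high (m : ℕ) : Submodule K T where
  carrier := {a | ∀ s < m, B.comp s a = 0}
  add_mem' := by
    intro a b ha hb s hs
    rw [map_add, ha s hs, hb s hs, add_zero]
  zero_mem' := by
    intro s _
    exact map_zero _
  smul_mem' := by
    intro c a ha s hs
    rw [map_smul, ha s hs, smul_zero]

lemma b_mem_high {l : List X} {m : ℕ} (h : m ≤ l.length) : B.b l ∈ B.high m := by
  intro s hs
  rw [comp_b, if_neg]
  omega

lemma high_eq_span (m : ℕ) : B.high m = span K (B.b '' {l | m ≤ l.length}) := by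
  apply le_antisymm
  · intro a ha
    obtain ⟨D, hD⟩ := B.exists_bound a
    rw [hD D le_rfl]
    apply sum_mem
    intro s _
    by_cases hs : s < m
    · rw [ha s hs]
      exact zero_mem _
    · have h1 := B.comp_mem s a
      refine (span_le.2 ?_ : B.homog s ≤ _) h1
      rintro _ ⟨l, rfl⟩
      exact subset_span ⟨l.1, by simp only [Set.mem_ofPred_eq]; rw [l.2]; omega, rfl⟩
  · rw [span_le]
    rintro _ ⟨l, hl, rfl⟩
    exact B.b_mem_high hl

lemma mul_mem_high {a : T} {m : ℕ} (ha : a ∈ B.high m) (c : T) : c * a ∈ B.high m := by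
  rw [high_eq_span] at ha
  induction ha using span_induction with
  | mem x hx =>
    obtain ⟨l, hl, rfl⟩ := hx
    have h := B.b.mem_span c
    induction h using span_induction with
    | mem x hx =>
      obtain ⟨l', rfl⟩ := hx
      rw [← B.mul]
      apply B.b_mem_high
      rw [List.length_append]
      exact le_trans hl (Nat.le_add_left _ _)
    | zero => simp
    | add x y _ _ hx hy => rw [add_mul]; exact add_mem hx hy
    | smul c x _ hx => rw [smul_mul_assoc]; exact smul_mem _ _ hx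
  | zero => simp
  | add x y _ _ hx hy => rw [mul_add]; exact add_mem hx hy
  | smul c x _ hx => rw [mul_smul_comm]; exact smul_mem _ _ hx

lemma high_decomp {a : T} {m : ℕ} (ha : a ∈ B.high m) {D : ℕ}
    (hD : ∀ D' ≥ D, a = ∑ s ∈ Finset.range D', B.comp s a) :
    a = ∑ d ∈ Finset.range D, B.comp (m + d) a := by
  have h1 := hD (m + D) (Nat.le_add_left _ _)
  rw [Finset.sum_range_add] at h1
  have h2 : ∑ s ∈ Finset.range m, B.comp s a = 0 :=
    Finset.sum_eq_zero fun s hs => ha s (Finset.mem_range.1 hs)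
  rw [h2, zero_add] at h1
  exact h1

/-- Truncation: the sum of the components of degree less than `m`. -/
noncomputable def trunc (m : ℕ) (a : T) : T := ∑ s ∈ Finset.range m, B.comp s a

lemma comp_comp (s t : ℕ) (a : T) : B.comp s (B.comp t a) = if t = s then B.comp s a else 0 := by
  split_ifs with h
  · subst h
    exact B.comp_of_mem (B.comp_mem t a)
  · exact B.comp_of_mem_ne (B.comp_mem t a) h

lemma sub_trunc_mem (m : ℕ) (a : T) : a - B.trunc m a ∈ B.high m := by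
  intro s hs
  unfold trunc
  rw [map_sub, map_sum]
  simp only [comp_comp]
  rw [Finset.sum_ite_eq', if_pos (Finset.mem_range.2 hs), sub_self]

lemma trunc_mem_span (m : ℕ) (a : T) : B.trunc m a ∈ span K (B.b '' {l | l.length < m}) := by
  unfold trunc
  apply sum_mem
  intro s hs
  have hs' := Finset.mem_range.1 hs
  refine (span_le.2 ?_ : B.homog s ≤ _) (B.comp_mem s a)
  rintro _ ⟨l, rfl⟩
  exact subset_span ⟨l.1, by simp only [Set.mem_ofPred_eq]; rw [l.2]; omega, rfl⟩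

lemma finite_trunc [Finite K] [Finite X] (m : ℕ) :
    ((span K (B.b '' {l | l.length < m}) : Submodule K T) : Set T).Finite := by
  have hf : (B.b '' {l | l.length < m}).Finite := (List.finite_length_lt X m).image _
  have : FiniteDimensional K (span K (B.b '' {l | l.length < m})) :=
    FiniteDimensional.span_of_finite K hf
  have : Finite (span K (B.b '' {l | l.length < m})) := Module.finite_of_finite K
  exact Set.toFinite _

lemma prod_mem_homog {n : ℕ} (g : Fin n → T) (d : Fin n → ℕ) (h : ∀ i, g i ∈ B.homog (d i)) :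
    (List.ofFn g).prod ∈ B.homog (∑ i, d i) := by
  induction n with
  | zero =>
    simp only [List.ofFn_zero, List.prod_nil, Finset.univ_eq_empty, Finset.sum_empty]
    rw [← B.one]
    exact B.b_mem_homog rfl
  | succ n ih =>
    rw [List.ofFn_succ, List.prod_cons, Fin.sum_univ_succ]
    exact B.mul_homog (h 0) (ih _ _ fun i => h i.succ)

end components

section relations

variable {K X T : Type} [Field K] [Ring T] [Algebra K T] (B : WordBasis K X T)

/-- Tuples of elements. -/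
abbrev Tup (T : Type) := Σ N : ℕ, (Fin N → T)

variable (E : ℕ → Tup T)

/-- A common degree bound for the tuple number `e`. -/
noncomputable def bd (e : ℕ) : ℕ := (B.exists_bound_tuple (E e).2).choose

lemma bd_spec (e : ℕ) (j : Fin (E e).1) : ∀ D' ≥ B.bd E e,
    (E e).2 j = ∑ s ∈ Finset.range D', B.comp s ((E e).2 j) :=
  (B.exists_bound_tuple (E e).2).choose_spec j

/-- The index type of the relations. -/
abbrev Idx : Type := X ⊕ (X × X) ⊕ (Σ e : ℕ, (Fin (e + 3) → Fin (E e).1 × Fin (B.bd E e)))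

/-- The relations. -/
noncomputable def rel : B.Idx E → T
  | Sum.inl x => B.b [x] * B.b [x]
  | Sum.inr (Sum.inl p) => B.b [p.1] * B.b [p.2] * B.b [p.1]
  | Sum.inr (Sum.inr ⟨e, q⟩) =>
    (List.ofFn fun i => B.comp ((E e).1 + 1 + (q i).2) ((E e).2 (q i).1)).prod

/-- Their degrees. -/
def deg : B.Idx E → ℕ
  | Sum.inl _ => 2
  | Sum.inr (Sum.inl _) => 3
  | Sum.inr (Sum.inr ⟨e, q⟩) => ∑ i, ((E e).1 + 1 + (q i).2)

lemma rel_mem (i : B.Idx E) : B.rel E i ∈ B.homog (B.deg E i) := by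
  rcases i with x | p | ⟨e, q⟩
  · exact B.mul_homog (m := 1) (n := 1) (B.b_mem_homog rfl) (B.b_mem_homog rfl)
  · exact B.mul_homog (m := 2) (n := 1) (B.mul_homog (m := 1) (n := 1) (B.b_mem_homog rfl)
      (B.b_mem_homog rfl)) (B.b_mem_homog rfl)
  · exact B.prod_mem_homog _ _ fun i => B.comp_mem _ _

lemma le_deg (e : ℕ) (q) : e + 3 ≤ B.deg E (Sum.inr (Sum.inr ⟨e, q⟩)) := by
  simp only [deg]
  calc e + 3 = ∑ _i : Fin (e + 3), 1 := by simp
    _ ≤ _ := Finset.sum_le_sum fun i _ => by omega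

lemma one_le_deg (i : B.Idx E) : 1 ≤ B.deg E i := by
  rcases i with x | p | ⟨e, q⟩
  · exact (by norm_num : 1 ≤ 2)
  · exact (by norm_num : 1 ≤ 3)
  · have := B.le_deg E e q
    omega

lemma finite_deg_le [Finite X] (n : ℕ) : {i | B.deg E i ≤ n}.Finite := by
  have h1 : (Set.range (Sum.inl : X → B.Idx E)).Finite := Set.finite_range _
  have h2 : (Set.range fun p : X × X => (Sum.inr (Sum.inl p) : B.Idx E)).Finite :=
    Set.finite_range _
  have h3 : (⋃ e ∈ Finset.range n, Set.range fun q : Fin (e + 3) → Fin (E e).1 × Fin (B.bd E e) =>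
      (Sum.inr (Sum.inr ⟨e, q⟩) : B.Idx E)).Finite :=
    Set.Finite.biUnion (Finset.finite_toSet _) fun e _ => Set.finite_range _
  refine ((h1.union h2).union h3).subset ?_
  rintro (x | p | ⟨e, q⟩) hi
  · exact Or.inl (Or.inl ⟨x, rfl⟩)
  · exact Or.inl (Or.inr ⟨p, rfl⟩)
  · refine Or.inr ?_
    have h4 := B.le_deg E e q
    have hi' : B.deg E (Sum.inr (Sum.inr ⟨e, q⟩)) ≤ n := hi
    simp only [Set.mem_iUnion]
    exact ⟨e, Finset.mem_range.2 (by omega), q, rfl⟩

/-- Total weight of the relations attached to one tuple. -/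
lemma sum_tuple_le (e : ℕ) :
    ∑ q : Fin (e + 3) → Fin (E e).1 × Fin (B.bd E e),
      ((8 : ℝ)⁻¹) ^ (B.deg E (Sum.inr (Sum.inr ⟨e, q⟩))) ≤ (1 / 2) ^ (e + 3) := by
  have h1 : ∑ q : Fin (e + 3) → Fin (E e).1 × Fin (B.bd E e),
      ((8 : ℝ)⁻¹) ^ (B.deg E (Sum.inr (Sum.inr ⟨e, q⟩))) =
      (∑ p : Fin (E e).1 × Fin (B.bd E e), ((8 : ℝ)⁻¹) ^ ((E e).1 + 1 + (p.2 : ℕ))) ^ (e + 3) := by
    rw [Fintype.sum_pow]
    refine Finset.sum_congr rfl fun q _ => ?_
    simp only [deg]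
    rw [Finset.prod_pow_eq_pow_sum]
  rw [h1]
  apply pow_le_pow_left₀
  · positivity
  · rw [Fintype.sum_prod_type]
    simp only [Finset.sum_const, Finset.card_univ, Fintype.card_fin, nsmul_eq_mul]
    set N := (E e).1
    set D := B.bd E e
    have h2 : ∑ y : Fin D, ((8 : ℝ)⁻¹) ^ (N + 1 + (y : ℕ)) =
        ((8 : ℝ)⁻¹) ^ (N + 1) * ∑ d ∈ Finset.range D, ((8 : ℝ)⁻¹) ^ d := by
      rw [Finset.mul_sum, Finset.sum_range (fun d : ℕ => ((8 : ℝ)⁻¹) ^ (N + 1) * ((8 : ℝ)⁻¹) ^ d)]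
      refine Finset.sum_congr rfl fun y _ => ?_
      rw [pow_add]
    simp only [h2]
    have h3 : ∑ d ∈ Finset.range D, ((8 : ℝ)⁻¹) ^ d ≤ 2 := by
      rw [geom_sum_eq (by norm_num)]
      have : 0 ≤ ((8 : ℝ)⁻¹) ^ D := by positivity
      have h4 : ((8 : ℝ)⁻¹ ^ D - 1) / (8⁻¹ - 1) = (1 - (8 : ℝ)⁻¹ ^ D) * (8 / 7) := by
        field_simp
        ring
      rw [h4]
      nlinarith
    have h5 : (N : ℝ) * ((8 : ℝ)⁻¹) ^ N ≤ 1 := by
      have h6 : (N : ℝ) ≤ 8 ^ N := by
        have : N < 8 ^ N := Nat.lt_pow_self (by norm_num)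
        exact_mod_cast this.le
      rw [inv_pow]
      rw [← div_eq_mul_inv]
      exact div_le_one_of_le₀ h6 (by positivity)
    have h7 : 0 ≤ (N : ℝ) * ((8 : ℝ)⁻¹) ^ N := by positivity
    have h8 : 0 ≤ ∑ d ∈ Finset.range D, ((8 : ℝ)⁻¹) ^ d := by positivity
    calc (N : ℝ) * (((8 : ℝ)⁻¹) ^ (N + 1) * ∑ d ∈ Finset.range D, ((8 : ℝ)⁻¹) ^ d)
        = ((N : ℝ) * ((8 : ℝ)⁻¹) ^ N) * (8⁻¹ * ∑ d ∈ Finset.range D, ((8 : ℝ)⁻¹) ^ d) := by
          rw [pow_succ]; ring
      _ ≤ 1 * (8⁻¹ * 2) := by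
          apply mul_le_mul h5 _ (by positivity) (by norm_num)
          exact mul_le_mul_of_nonneg_left h3 (by norm_num)
      _ ≤ 1 / 2 := by norm_num

/-- The number of the tuple of an index, plus one. -/
def lev : B.Idx E → ℕ
  | Sum.inl _ => 0
  | Sum.inr (Sum.inl _) => 0
  | Sum.inr (Sum.inr ⟨e, _⟩) => e + 1

lemma sum_deg_le [Fintype X] (hX : Fintype.card X = 16) (S : Finset (B.Idx E)) :
    ∑ i ∈ S, ((8 : ℝ)⁻¹) ^ (B.deg E i) ≤ Fintype.card X / 8 - 1 := by
  classical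
  obtain ⟨M, hM⟩ : ∃ M : ℕ, ∀ e q, (Sum.inr (Sum.inr ⟨e, q⟩) : B.Idx E) ∈ S → e < M := by
    refine ⟨S.sup (B.lev E), fun e q h => ?_⟩
    have h1 : B.lev E (Sum.inr (Sum.inr ⟨e, q⟩)) ≤ S.sup (B.lev E) := Finset.le_sup h
    exact h1
  let S1 : Finset (B.Idx E) := Finset.univ.image Sum.inl
  let S2 : Finset (B.Idx E) := Finset.univ.image fun p : X × X => Sum.inr (Sum.inl p)
  let S3 : Finset (B.Idx E) := (Finset.range M).biUnion fun e =>
    Finset.univ.image fun q : Fin (e + 3) → Fin (E e).1 × Fin (B.bd E e) =>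
      (Sum.inr (Sum.inr ⟨e, q⟩) : B.Idx E)
  have hsub : S ⊆ S1 ∪ S2 ∪ S3 := by
    rintro (x | p | ⟨e, q⟩) hi
    · simp [S1]
    · simp [S2]
    · have := hM e q hi
      simp only [S3, Finset.mem_union, Finset.mem_biUnion, Finset.mem_range, Finset.mem_image]
      exact Or.inr ⟨e, this, q, Finset.mem_univ _, rfl⟩
  have hnn : ∀ i : B.Idx E, 0 ≤ ((8 : ℝ)⁻¹) ^ (B.deg E i) := fun i => by positivity
  have hunion : ∀ A A' : Finset (B.Idx E), ∑ i ∈ A ∪ A', ((8 : ℝ)⁻¹) ^ (B.deg E i) ≤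
      ∑ i ∈ A, ((8 : ℝ)⁻¹) ^ (B.deg E i) + ∑ i ∈ A', ((8 : ℝ)⁻¹) ^ (B.deg E i) := by
    intro A A'
    rw [← Finset.sum_union_inter]
    exact le_add_of_nonneg_right (Finset.sum_nonneg fun i _ => hnn i)
  have h1 : ∑ i ∈ S1, ((8 : ℝ)⁻¹) ^ (B.deg E i) = 16 * 8⁻¹ ^ 2 := by
    rw [Finset.sum_image (fun a _ b _ h => Sum.inl.inj h)]
    simp only [deg, Finset.sum_const, Finset.card_univ, hX, nsmul_eq_mul]
    norm_num
  have h2 : ∑ i ∈ S2, ((8 : ℝ)⁻¹) ^ (B.deg E i) = 256 * 8⁻¹ ^ 3 := by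
    rw [Finset.sum_image (fun a _ b _ h => Sum.inl.inj (Sum.inr.inj h))]
    simp only [deg, Finset.sum_const, Finset.card_univ, Fintype.card_prod, hX, nsmul_eq_mul]
    norm_num
  have h3 : ∑ i ∈ S3, ((8 : ℝ)⁻¹) ^ (B.deg E i) ≤ 1 / 4 := by
    have h4 : ∑ i ∈ S3, ((8 : ℝ)⁻¹) ^ (B.deg E i) ≤ ∑ e ∈ Finset.range M, (1 / 2 : ℝ) ^ (e + 3) := by
      calc ∑ i ∈ S3, ((8 : ℝ)⁻¹) ^ (B.deg E i)
          ≤ ∑ e ∈ Finset.range M, ∑ i ∈ Finset.univ.image
            (fun q : Fin (e + 3) → Fin (E e).1 × Fin (B.bd E e) =>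
              (Sum.inr (Sum.inr ⟨e, q⟩) : B.Idx E)), ((8 : ℝ)⁻¹) ^ (B.deg E i) := by
            rw [Finset.sum_biUnion]
            intro e _ e' _ hee'
            rw [Function.onFun, Finset.disjoint_left]
            intro i hi hi'
            simp only [Finset.mem_image, Finset.mem_univ, true_and] at hi hi'
            obtain ⟨q, rfl⟩ := hi
            obtain ⟨q', hq'⟩ := hi'
            have := Sum.inr.inj (Sum.inr.inj hq')
            exact hee' (congrArg Sigma.fst this).symm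
        _ ≤ _ := by
            apply Finset.sum_le_sum
            intro e _
            rw [Finset.sum_image]
            · exact B.sum_tuple_le E e
            · intro q _ q' _ h
              have := Sum.inr.inj (Sum.inr.inj h)
              simpa using this
    refine h4.trans ?_
    simp only [pow_add]
    rw [← Finset.sum_mul, geom_sum_eq (by norm_num)]
    have : 0 ≤ (1 / 2 : ℝ) ^ M := by positivity
    have h5 : ((1 / 2 : ℝ) ^ M - 1) / (1 / 2 - 1) * (1 / 2) ^ 3 = (1 - (1 / 2 : ℝ) ^ M) / 4 := by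
      ring
    rw [h5]
    linarith
  calc ∑ i ∈ S, ((8 : ℝ)⁻¹) ^ (B.deg E i)
      ≤ ∑ i ∈ S1 ∪ S2 ∪ S3, ((8 : ℝ)⁻¹) ^ (B.deg E i) :=
        Finset.sum_le_sum_of_subset_of_nonneg hsub fun i _ _ => hnn i
    _ ≤ ∑ i ∈ S1 ∪ S2, ((8 : ℝ)⁻¹) ^ (B.deg E i) + ∑ i ∈ S3, ((8 : ℝ)⁻¹) ^ (B.deg E i) :=
        hunion _ _
    _ ≤ (∑ i ∈ S1, ((8 : ℝ)⁻¹) ^ (B.deg E i) + ∑ i ∈ S2, ((8 : ℝ)⁻¹) ^ (B.deg E i)) +
          ∑ i ∈ S3, ((8 : ℝ)⁻¹) ^ (B.deg E i) := by gcongr; exact hunion _ _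
    _ ≤ (16 * 8⁻¹ ^ 2 + 256 * 8⁻¹ ^ 3) + 1 / 4 := by rw [h1, h2]; gcongr
    _ ≤ _ := by rw [hX]; norm_num

end relations

end WordBasis

end Pool.Agent.Helper77.GS
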