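import Mathlib
import Pool.Agent.Helper77.GS.Rel

/-!
The quotient algebra.
-/

namespace Pool.Agent.Helper77.GS

open Module Submodule

section nil

variable {K A : Type*} [Field K] [Finite K] [Ring A] [Algebra K A]

/-- A finitely generated algebra over a finite field is finite if all long products of
generators vanish. -/
lemma finite_adjoin_of_nil (S : Set A) (hS : S.Finite) (ℓ : ℕ)
    (hnil : ∀ L : List A, (∀ y ∈ L, y ∈ S) → L.length = ℓ → L.prod = 0) :
    ((Algebra.adjoin K S : Subalgebra K A) : Set A).Finite := by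
  have : Finite S := hS
  let F : Set A := (fun L : List S => (L.map (fun y : S => (y : A))).prod) ''
    {L : List S | L.length < ℓ} ∪ {0}
  have hF : F.Finite := ((List.finite_length_lt S ℓ).image _).union (Set.finite_singleton 0)
  have hsub : ((Submonoid.closure S : Submonoid A) : Set A) ⊆ F := by
    intro x hx
    obtain ⟨L, hL, rfl⟩ := Submonoid.exists_list_of_mem_closure hx
    by_cases hlen : L.length < ℓ
    · left
      refine ⟨L.attach.map fun y => ⟨y.1, hL y.1 y.2⟩, ?_, ?_⟩
      · simpa using hlen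
      · simp [List.map_map, Function.comp_def]
    · right
      rw [Set.mem_singleton_iff, ← List.take_append_drop ℓ L, List.prod_append, hnil, zero_mul]
      · intro y hy
        exact hL y (List.mem_of_mem_take hy)
      · rw [List.length_take]
        omega
  have h1 : ((Algebra.adjoin K S : Subalgebra K A) : Set A) ⊆ (span K F : Submodule K A) := by
    intro x hx
    have : x ∈ (Subalgebra.toSubmodule (Algebra.adjoin K S)) := hx
    rw [Algebra.adjoin_eq_span] at this
    exact span_mono hsub this
  have : FiniteDimensional K (span K F) := FiniteDimensional.span_of_finite K hF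
  have : Finite (span K F) := Module.finite_of_finite K
  exact (Set.toFinite ((span K F : Submodule K A) : Set A)).subset h1

end nil

namespace WordBasis

variable {K X T : Type} [Field K] [Ring T] [Algebra K T] (B : WordBasis K X T)
  (E : ℕ → Tup T)

/-- The ideal of relations. -/
def idl : Ideal T where
  carrier := B.ideal (B.rel E)
  add_mem' := fun ha hb => add_mem ha hb
  zero_mem' := zero_mem _
  smul_mem' := fun c _ ha => B.mul_mem_ideal_left _ ha c

instance : (B.idl E).IsTwoSided := ⟨fun c h => B.mul_mem_ideal_right _ h c⟩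

/-- The algebra. -/
abbrev Alg : Type := T ⧸ B.idl E

/-- The quotient map. -/
abbrev pr : T →ₐ[K] B.Alg E := Ideal.Quotient.mkₐ K (B.idl E)

lemma pr_eq_zero {a : T} : B.pr E a = 0 ↔ a ∈ B.ideal (B.rel E) := by
  exact Ideal.Quotient.eq_zero_iff_mem

lemma pr_surjective : Function.Surjective (B.pr E) := Ideal.Quotient.mkₐ_surjective K _

/-- The generators. -/
noncomputable def gen (x : X) : B.Alg E := B.pr E (B.b [x])

lemma gen_sq (x : X) : B.gen E x * B.gen E x = 0 := by
  unfold gen
  rw [← map_mul, pr_eq_zero]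
  exact B.r_mem_ideal (B.rel E) (Sum.inl x)

lemma gen_aba (x y : X) : B.gen E x * B.gen E y * B.gen E x = 0 := by
  unfold gen
  rw [← map_mul, ← map_mul, pr_eq_zero]
  exact B.r_mem_ideal (B.rel E) (Sum.inr (Sum.inl (x, y)))

lemma adjoin_gen : Algebra.adjoin K (Set.range (B.gen E)) = ⊤ := by
  rw [eq_top_iff]
  intro a _
  obtain ⟨t, rfl⟩ := B.pr_surjective E a
  have h := B.b.mem_span t
  induction h using span_induction with
  | mem x hx =>
    obtain ⟨l, rfl⟩ := hx
    induction l with
    | nil => rw [B.one, map_one]; exact one_mem _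
    | cons x l ih =>
      have : B.b (x :: l) = B.b [x] * B.b l := by rw [← B.mul]; rfl
      rw [this, map_mul]
      exact mul_mem (Algebra.subset_adjoin ⟨x, rfl⟩) (ih trivial)
  | zero => rw [map_zero]; exact zero_mem _
  | add x y _ _ hx hy => rw [map_add]; exact add_mem (hx trivial) (hy trivial)
  | smul c x _ hx => rw [map_smul]; exact Subalgebra.smul_mem _ (hx trivial) c

lemma infinite_alg [Fintype X] (hX : Fintype.card X = 16) : Infinite (B.Alg E) := by
  have h := B.exists_word (B.rel E) (B.deg E) (B.rel_mem E) (B.one_le_deg E) (B.finite_deg_le E)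
    8 (by norm_num) (fun S => B.sum_deg_le E hX S)
  choose w hw hw' using h
  refine Infinite.of_injective (fun n => B.pr E (B.b (w n))) ?_
  intro m n hmn
  by_contra hne
  simp only at hmn
  have h1 : B.b (w m) - B.b (w n) ∈ B.ideal (B.rel E) := by
    rw [← pr_eq_zero, map_sub, hmn, sub_self]
  have h2 := B.comp_mem_ideal (B.rel E) (B.deg E) (B.rel_mem E) h1 m
  rw [map_sub, comp_b, comp_b, if_pos (hw m), if_neg, sub_zero] at h2
  · exact hw' m h2
  · rw [hw n]
    exact fun h => hne h.symm

/-- The filtration. -/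
noncomputable def L (m : ℕ) : Submodule K (B.Alg E) := (B.high m).map (B.pr E).toLinearMap

lemma mul_mem_L {m : ℕ} {a : B.Alg E} (ha : a ∈ B.L E m) (c : B.Alg E) : c * a ∈ B.L E m := by
  obtain ⟨t, ht, rfl⟩ := ha
  obtain ⟨s, rfl⟩ := B.pr_surjective E c
  refine ⟨s * t, B.mul_mem_high ht s, ?_⟩
  simp

lemma exists_finite_reps [Finite K] [Finite X] (m : ℕ) : ∃ F : Set (B.Alg E), F.Finite ∧
    ∀ a, ∃ u ∈ F, a - u ∈ B.L E m := by
  refine ⟨B.pr E '' ((span K (B.b '' {l | l.length < m}) : Submodule K T) : Set T),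
    (B.finite_trunc m).image _, fun a => ?_⟩
  obtain ⟨t, rfl⟩ := B.pr_surjective E a
  refine ⟨B.pr E (B.trunc m t), ⟨_, B.trunc_mem_span m t, rfl⟩, ?_⟩
  exact ⟨t - B.trunc m t, B.sub_trunc_mem m t, by simp⟩

lemma finite_adjoin_aux [Finite K] (e : ℕ)
    (h : ∀ j, (E e).2 j ∈ B.high ((E e).1 + 1)) :
    ((Algebra.adjoin K (Set.range fun j => B.pr E ((E e).2 j)) :
      Subalgebra K (B.Alg E)) : Set (B.Alg E)).Finite := by
  set S : Set (B.Alg E) := Set.range fun p : Fin (E e).1 × Fin (B.bd E e) =>
    B.pr E (B.comp ((E e).1 + 1 + p.2) ((E e).2 p.1)) with hS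
  have h1 : Algebra.adjoin K (Set.range fun j => B.pr E ((E e).2 j)) ≤ Algebra.adjoin K S := by
    rw [Algebra.adjoin_le_iff]
    rintro _ ⟨j, rfl⟩
    simp only
    rw [B.high_decomp (h j) (B.bd_spec E e j), map_sum]
    apply sum_mem
    intro d hd
    apply Algebra.subset_adjoin
    exact ⟨(j, ⟨d, Finset.mem_range.1 hd⟩), rfl⟩
  refine Set.Finite.subset (finite_adjoin_of_nil S (Set.finite_range _) (e + 3) ?_) h1
  intro L hL hlen
  obtain ⟨g, rfl⟩ : ∃ g : Fin (e + 3) → B.Alg E, L = List.ofFn g := by
    refine ⟨fun i => L[(i : ℕ)], ?_⟩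
    apply List.ext_getElem
    · simp [hlen]
    · intro n h1 h2
      rw [List.getElem_ofFn]
  have h2 : ∀ i, ∃ p : Fin (E e).1 × Fin (B.bd E e),
      B.pr E (B.comp ((E e).1 + 1 + p.2) ((E e).2 p.1)) = g i := fun i =>
    hL (g i) (List.mem_ofFn.2 ⟨i, rfl⟩)
  choose q hq using h2
  have h3 : (List.ofFn g).prod = B.pr E (B.rel E (Sum.inr (Sum.inr ⟨e, q⟩))) := by
    simp only [rel]
    rw [map_list_prod, List.map_ofFn]
    congr 2
    funext i
    exact (hq i).symm
  rw [h3, pr_eq_zero]
  exact B.r_mem_ideal (B.rel E) _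

lemma finite_adjoin [Finite K] (hE : Function.Surjective E) (N : ℕ) (f : Fin N → B.Alg E)
    (hf : ∀ j, f j ∈ B.L E (N + 1)) :
    ((Algebra.adjoin K (Set.range f) : Subalgebra K (B.Alg E)) : Set (B.Alg E)).Finite := by
  choose t ht ht' using hf
  obtain ⟨e, he⟩ := hE ⟨N, t⟩
  have h := B.finite_adjoin_aux E e
  rw [he] at h
  have h1 := h ht
  have h2 : f = fun j => B.pr E (t j) := by
    funext j
    exact (ht' j).symm
  rw [h2]
  exact h1

end WordBasis

/-- The free algebra on 16 generators over the field with 257 elements. -/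
abbrev FT : Type := FreeAlgebra (ZMod 257) (Fin 16)

instance : Fact (Nat.Prime 257) := ⟨by norm_num⟩

/-- The basis of words of the free algebra, indexed by lists. -/
noncomputable def lb : Basis (List (Fin 16)) (ZMod 257) FT :=
  (FreeAlgebra.basisFreeMonoid (ZMod 257) (Fin 16)).reindex FreeMonoid.toList

lemma lb_apply (l : List (Fin 16)) :
    lb l = FreeAlgebra.equivMonoidAlgebraFreeMonoid.symm
        (MonoidAlgebra.single (FreeMonoid.ofList l) 1) := by
  unfold lb
  rw [Basis.reindex_apply]
  simp [FreeAlgebra.basisFreeMonoid]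

/-- Its basis of words. -/
noncomputable def wb : WordBasis (ZMod 257) (Fin 16) FT where
  b := lb
  one := by
    rw [lb_apply]
    change FreeAlgebra.equivMonoidAlgebraFreeMonoid.symm (MonoidAlgebra.single 1 1) = 1
    rw [← MonoidAlgebra.one_def, map_one]
  mul := by
    intro l l'
    rw [lb_apply, lb_apply, lb_apply, ← map_mul, MonoidAlgebra.single_mul_single,
      FreeMonoid.ofList_append, mul_one]

instance : Countable FT := wb.b.repr.toEquiv.countable_iff.2 inferInstance

/-- An enumeration of all tuples. -/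
noncomputable def En : ℕ → WordBasis.Tup FT := (exists_surjective_nat (WordBasis.Tup FT)).choose

lemma En_surjective : Function.Surjective En :=
  (exists_surjective_nat (WordBasis.Tup FT)).choose_spec

/-- The Golod-Shafarevich algebra. -/
abbrev GSA : Type := wb.Alg En

end Pool.Agent.Helper77.GS
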